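import Pool.Agent.T9h87.Lin.Spec

/-!
# The linear van Kampen-Flores theorem for seven points in dimension four
-/

set_option autoImplicit false

namespace Pool.Agent.T9h67.Lin

open Finset
open Pool.Agent.T9h87.Lin

/-- the map with the kernel of affine dependencies -/
noncomputable def dep (g : Fin 7 → V4) : (Fin 7 → ℝ) →ₗ[ℝ] ℝ × V4 :=
  LinearMap.prod (∑ k, LinearMap.proj k) (∑ k, (LinearMap.proj k).smulRight (g k))

theorem dep_apply (g : Fin 7 → V4) (μ : Fin 7 → ℝ) :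
    dep g μ = (∑ k, μ k, ∑ k, μ k • g k) := by
  simp [dep]

theorem rank_ker (g : Fin 7 → V4) : 1 < Module.rank ℝ (LinearMap.ker (dep g)) := by
  have h1 := LinearMap.finrank_range_add_finrank_ker (dep g)
  have h2 : Module.finrank ℝ (LinearMap.range (dep g)) ≤ Module.finrank ℝ (ℝ × V4) :=
    Submodule.finrank_le _
  have h3 : Module.finrank ℝ (ℝ × V4) = 5 := by
    rw [Module.finrank_prod, Module.finrank_self, Module.finrank_fin_fun]
  rw [Module.finrank_fin_fun] at h1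
  have h4 : 1 < Module.finrank ℝ (LinearMap.ker (dep g)) := by omega
  rw [← Module.finrank_eq_rank]
  exact_mod_cast h4

theorem open_pos (L : Submodule ℝ (Fin 7 → ℝ)) :
    IsOpen {μ : L | 4 ≤ (univ.filter (fun k => 0 < (μ : Fin 7 → ℝ) k)).card} := by
  rw [isOpen_iff_mem_nhds]
  intro μ hμ
  have h : ∀ k : Fin 7, ∀ᶠ y : L in nhds μ, 0 < (μ : Fin 7 → ℝ) k → 0 < (y : Fin 7 → ℝ) k := by
    intro k
    by_cases hk : 0 < (μ : Fin 7 → ℝ) k
    · have hc : Continuous (fun y : L => (y : Fin 7 → ℝ) k) :=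
        (continuous_apply k).comp continuous_subtype_val
      filter_upwards [hc.continuousAt.eventually (lt_mem_nhds hk)] with y hy _ using hy
    · exact Filter.Eventually.of_forall fun y h => absurd h hk
  have h' := Filter.eventually_all.2 h
  filter_upwards [h'] with y hy
  refine le_trans hμ (card_le_card ?_)
  intro k hk
  rw [mem_filter] at hk ⊢
  exact ⟨mem_univ _, hy k hk.2⟩

theorem open_neg (L : Submodule ℝ (Fin 7 → ℝ)) :
    IsOpen {μ : L | 4 ≤ (univ.filter (fun k => (μ : Fin 7 → ℝ) k < 0)).card} := by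
  have h := (open_pos L).preimage (continuous_neg : Continuous fun y : L => -y)
  convert h using 1
  ext μ
  simp

theorem vkf : StVKF := by
  intro g
  by_contra hcon
  push Not at hcon
  set L := LinearMap.ker (dep g) with hL
  have hmem : ∀ μ : L, ∑ k, (μ : Fin 7 → ℝ) k = 0 ∧ ∑ k, (μ : Fin 7 → ℝ) k • g k = 0 := by
    intro μ
    have : dep g (μ : Fin 7 → ℝ) = 0 := LinearMap.mem_ker.1 μ.2
    rw [dep_apply] at this
    exact ⟨congrArg Prod.fst this, congrArg Prod.snd this⟩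
  have hconn := isConnected_compl_singleton_of_one_lt_rank (E := L) (rank_ker g) 0
  have hcov : ∀ μ : L, μ ≠ 0 → 4 ≤ (univ.filter (fun k => 0 < (μ : Fin 7 → ℝ) k)).card ∨
      4 ≤ (univ.filter (fun k => (μ : Fin 7 → ℝ) k < 0)).card := by
    intro μ hμ
    by_contra hn
    push Not at hn
    have := hcon μ (by simpa using hμ) (hmem μ).1 (hmem μ).2 (by omega)
    omega
  obtain ⟨⟨μ, hμ⟩, hpre⟩ := hconn
  have hμ' : μ ≠ 0 := hμ
  have hneg : ∀ μ : L, 4 ≤ (univ.filter (fun k => 0 < (μ : Fin 7 → ℝ) k)).card ↔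
      4 ≤ (univ.filter (fun k => ((-μ : L) : Fin 7 → ℝ) k < 0)).card := by
    intro μ; simp
  have hneg' : ∀ μ : L, 4 ≤ (univ.filter (fun k => (μ : Fin 7 → ℝ) k < 0)).card ↔
      4 ≤ (univ.filter (fun k => 0 < ((-μ : L) : Fin 7 → ℝ) k)).card := by
    intro μ; simp
  have hne : ∃ ν : L, ν ≠ 0 ∧ 4 ≤ (univ.filter (fun k => 0 < (ν : Fin 7 → ℝ) k)).card := by
    rcases hcov μ hμ' with h | h
    · exact ⟨μ, hμ', h⟩
    · exact ⟨-μ, by simpa using hμ', (hneg' μ).1 h⟩
  obtain ⟨ν, hν0, hν⟩ := hne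
  obtain ⟨y, -, hy1, hy2⟩ := hpre _ _ (open_pos L) (open_neg L)
    (fun y hy => hcov y hy) ⟨ν, hν0, hν⟩ ⟨-ν, by simpa using hν0, (hneg ν).1 hν⟩
  have hd : Disjoint (univ.filter (fun k => 0 < (y : Fin 7 → ℝ) k))
      (univ.filter (fun k => (y : Fin 7 → ℝ) k < 0)) := by
    rw [disjoint_left]
    intro k h1 h2
    rw [mem_filter] at h1 h2
    linarith [h1.2, h2.2]
  have hc := card_union_of_disjoint hd
  have hu := card_le_univ (univ.filter (fun k => 0 < (y : Fin 7 → ℝ) k) ∪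
      univ.filter (fun k => (y : Fin 7 → ℝ) k < 0))
  rw [Fintype.card_fin] at hu
  have e1 : 4 ≤ (univ.filter (fun k => 0 < (y : Fin 7 → ℝ) k)).card := hy1
  have e2 : 4 ≤ (univ.filter (fun k => (y : Fin 7 → ℝ) k < 0)).card := hy2
  omega

end Pool.Agent.T9h67.Lin
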